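import Pool.Agent.H34.TAM.Stmts2

/-!
# Row GRA of the board `aut`
-/

set_option autoImplicit false

noncomputable section

open Filter
open scoped Topology TensorProduct

namespace Pool.AUT

open Pool.CGR Pool.CGS Pool.TAM MulOpposite

namespace H53GRA

/-- The trace `∑_j θ (A j j)`. -/
def kap {m : ℕ} {T : Type} [Ring T] [Algebra ℂ T] (θ : T →ₗ[ℂ] ℂ) :
    Matrix (Fin m) (Fin m) T →ₗ[ℂ] ℂ where
  toFun A := ∑ j, θ (A j j)
  map_add' A B := by
    simp only [Matrix.add_apply, map_add, Finset.sum_add_distrib]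
  map_smul' r A := by
    simp only [Matrix.smul_apply, map_smul, Finset.smul_sum, RingHom.id_apply]

/-- The entrywise map. -/
def mp {m : ℕ} {T : Type} [Ring T] [Algebra ℂ T] (δ : T →ₗ[ℂ] T) :
    Matrix (Fin m) (Fin m) T →ₗ[ℂ] Matrix (Fin m) (Fin m) T where
  toFun A := A.map δ
  map_add' A B := by
    ext i j
    simp only [Matrix.map_apply, Matrix.add_apply, map_add]
  map_smul' r A := by
    ext i j
    simp only [Matrix.map_apply, Matrix.smul_apply, map_smul, RingHom.id_apply]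

lemma der_one {B : Type} [Ring B] [Algebra ℂ B] {δ : B →ₗ[ℂ] B} (h : IsDer δ) : δ 1 = 0 := by
  have h1 := h 1 1
  rw [mul_one, one_mul, mul_one] at h1
  exact left_eq_add.mp h1

/-- The whole sum for larger bounds. -/
lemma sum_of_le {T : Type} [Ring T] [Algebra ℂ T] (c : ℕ → (T →ₗ[ℂ] T)) (z : T) (N N' : ℕ)
    (h0 : ∀ n, N ≤ n → c n z = 0) (hs : ∑ n ∈ Finset.range N, c n z = z) (hN : N ≤ N') :
    ∑ n ∈ Finset.range N', c n z = z := by
  refine Eq.trans (Eq.symm ?_) hs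
  refine Finset.sum_subset (Finset.range_mono hN) ?_
  intro n _ hn
  rw [Finset.mem_range, not_lt] at hn
  exact h0 n hn

/-- A common bound for the entries of a matrix. -/
lemma bound {m : ℕ} {T : Type} [Ring T] [Algebra ℂ T] (c : ℕ → (T →ₗ[ℂ] T))
    (hc : ∀ z, ∃ N : ℕ, (∀ n, N ≤ n → c n z = 0) ∧ ∑ n ∈ Finset.range N, c n z = z)
    (M : Matrix (Fin m) (Fin m) T) : ∃ N : ℕ, ∀ N', N ≤ N' →
      M.map (c N') = 0 ∧ ∑ n ∈ Finset.range N', M.map (c n) = M := by
  choose f hf1 hf2 using hc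
  refine ⟨∑ i, ∑ j, f (M i j), fun N' hN' => ?_⟩
  have hle : ∀ i j, f (M i j) ≤ N' := by
    intro i j
    refine le_trans ?_ hN'
    refine le_trans ?_ (Finset.single_le_sum (f := fun i => ∑ j, f (M i j))
      (fun _ _ => Nat.zero_le _) (Finset.mem_univ i))
    exact Finset.single_le_sum (f := fun j => f (M i j))
      (fun _ _ => Nat.zero_le _) (Finset.mem_univ j)
  constructor
  · ext i j
    rw [Matrix.map_apply, Matrix.zero_apply]
    exact hf1 (M i j) N' (hle i j)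
  · ext i j
    rw [Matrix.sum_apply]
    simp only [Matrix.map_apply]
    exact sum_of_le c (M i j) (f (M i j)) N' (hf1 (M i j)) (hf2 (M i j)) (hle i j)

/-- The grading of a product of matrices. -/
lemma prod {m : ℕ} {T : Type} [Ring T] [Algebra ℂ T] (c : ℕ → (T →ₗ[ℂ] T))
    (hc : ∀ (q : ℕ) (z z' : T), c q (z * z') =
      ∑ p ∈ Finset.HasAntidiagonal.antidiagonal q, c p.1 z * c p.2 z') (h1 : c 0 1 = 1)
    (h0 : ∀ q, q ≠ 0 → c q 1 = 0)
    (A B : Matrix (Fin m) (Fin m) T) (hAB : A * B = 1) (q : ℕ) :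
    ∑ p ∈ Finset.HasAntidiagonal.antidiagonal q, A.map (c p.1) * B.map (c p.2) =
      if q = 0 then 1 else 0 := by
  have e1 : ∑ p ∈ Finset.HasAntidiagonal.antidiagonal q, A.map (c p.1) * B.map (c p.2) =
      (A * B).map (c q) := by
    ext i j
    rw [Matrix.sum_apply, Matrix.map_apply, Matrix.mul_apply, map_sum]
    simp only [Matrix.mul_apply, Matrix.map_apply]
    rw [Finset.sum_comm]
    refine Finset.sum_congr rfl (fun k _ => ?_)
    rw [hc]
  rw [e1, hAB]
  by_cases hq : q = 0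
  · subst hq
    rw [if_pos rfl]
    ext i j
    rw [Matrix.map_apply, Matrix.one_apply]
    split_ifs
    · exact h1
    · exact map_zero _
  · rw [if_neg hq]
    ext i j
    rw [Matrix.map_apply, Matrix.one_apply, Matrix.zero_apply]
    split_ifs
    · exact h0 q hq
    · exact map_zero _

end H53GRA

open H53GRA

theorem gra_thm (h1 : TRMStmt) (h2 : LEMStmt) (h3 : SCLStmt) (h4 : TDRStmt) : GRAStmt := by
  intro m t ht M M' hM1 hM2
  obtain ⟨c, hc1, hc2, hc3, hc4, hc5⟩ := h3 m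
  obtain ⟨hder, htr⟩ := h4 m
  obtain ⟨hκ, hδ⟩ := h1 m (Te m)
  obtain ⟨N1, hN1⟩ := bound c hc1 M
  obtain ⟨N2, hN2⟩ := bound c hc1 M'
  set N : ℕ := max N1 N2 with hN
  refine ⟨∑ q ∈ Finset.range (2 * N), ∑ p ∈ Finset.HasAntidiagonal.antidiagonal q,
        ((p.2 : ℂ) / (q : ℂ)) • (M'.map (c p.1) * M.map (c p.2)), fun δ hd => ?_⟩
  have hd2 : IsDer (d2 δ) := hder δ hd
  have key := h2 (Matrix (Fin m) (Fin m) (Te m)) (kap (tt t)) (mp (d2 δ))
    (fun a b => hκ (tt t) ((htr t).1 ht) a b) (fun a b => hδ (d2 δ) hd2 a b) N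
    (fun n => M.map (c n)) (fun n => M'.map (c n))
    (fun n hn => ⟨(hN1 n (le_trans (le_max_left _ _) hn)).1,
      (hN2 n (le_trans (le_max_right _ _) hn)).1⟩)
    (fun q => prod c hc2 hc4 hc5 M' M hM1 q)
    (fun q => prod c hc2 hc4 hc5 M M' hM2 q)
    (by
      ext i j
      show d2 δ (c 0 (M i j)) = 0
      obtain ⟨r, hr⟩ := hc3 (M i j)
      rw [hr, Algebra.algebraMap_eq_smul_one, map_smul, der_one hd2, smul_zero])
  have s1 : ∑ n ∈ Finset.range N, M'.map (c n) = M' := (hN2 N (le_max_right _ _)).2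
  have s2 : ∑ n ∈ Finset.range N, M.map (c n) = M := (hN1 N (le_max_left _ _)).2
  rw [s1, s2] at key
  exact key

end Pool.AUT

end
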